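import Pool.Agent.Lib.MP_efe47c_gt.V.Exact

namespace Pool.Agent.Results.MP_efe47c_gt.ExactReduction
open Pool.Agent.Lib.MP_efe47c_gt Pool.Agent.Lib.MP_efe47c_gt.V

/-- A non-standard form on the 5-sphere has a non-standard partner on the 5-sphere whose contact
connected sum with it is the standard sphere if and only if it is standard off one point which lies
in a Darboux chart. -/
theorem result (α : Form R5 S5) (h : ¬Std α) :
    (∃ β : Form R5 S5, ¬Std β ∧ IsSum α β std) ↔ Off α :=
  exact_form h

end Pool.Agent.Results.MP_efe47c_gt.ExactReduction
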