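import Pool.Agent.Lib.MP_efe47c_gt.C.Top

namespace Pool.Agent.Results.MP_efe47c_gt.TopStandard
open Pool.Agent.Lib.MP_efe47c_gt Pool.Agent.Lib.MP_efe47c_gt.C
open scoped Manifold ContDiff

/-- Both summands of a contact connected sum decomposition of the standard contact 5-sphere are
standard as topological contact manifolds: there is a homeomorphism onto the standard sphere which
is smooth off one point, differentiable and contact everywhere, a uniform limit of
contactomorphisms off another point, and bi-Lipschitz for the distance of Korányi. -/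
theorem result {M N : Type} [TopologicalSpace M] [ChartedSpace R5 M] [IsManifold (𝓡 5) ∞ M]
    [T2Space M] [CompactSpace M] [TopologicalSpace N] [ChartedSpace R5 N] [IsManifold (𝓡 5) ∞ N]
    [T2Space N] [CompactSpace N] (α : Form R5 M) (β : Form R5 N) (h : IsSum α β std) :
    TopStd α ∧ TopStd β := by
  obtain ⟨ε, e0, e1, e₁, j₁, e₂, j₂, h₁, h₂, -⟩ := h
  exact ⟨piece_top e0 e1 h₁, piece_top e0 e1 h₂⟩

end Pool.Agent.Results.MP_efe47c_gt.TopStandard
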