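import Pool.Agent.Lib.MP_efe47c_gt.V.Tube

namespace Pool.Agent.Results.MP_efe47c_gt.TubeReduction
open Pool.Agent.Lib.MP_efe47c_gt Pool.Agent.Lib.MP_efe47c_gt.V

/-- The standard contact 5-sphere is a contact connected sum of two non-standard structures on the
5-sphere if and only if some periodic contactomorphism of `ℂ² × ℝ`, supported in the tube of radius
`ε` and `ε`-close to the identity, has a smooth cut-off but no contact cut-off. -/
theorem result (ε : ℝ) (hε : 0 < ε) :
    (∃ α β : Form R5 S5, ¬Std α ∧ ¬Std β ∧ IsSum α β std) ↔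
      ∃ K : Hs ≃ Hs, Dif K ∧ Con K ∧ Per ε K ∧ (∃ L, Cut K L) ∧ ¬∃ L, Cut K L ∧ Con L :=
  tube_form hε

end Pool.Agent.Results.MP_efe47c_gt.TubeReduction
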